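import Pool.Agent.helper92.RC.Spec

/-!
# Project RC, row TOW (helper51): there is no state
-/

set_option autoImplicit false

namespace Pool.Agent.helper92.RC

open scoped commutatorElement

universe u

theorem TOW_shift {G : Type u} [Group G] (g b : ℕ → G) (h : Solv (fun k => g (k + 1)) (fun k => b (k + 1))) :
    Solv g b := by
  intro ε
  obtain ⟨z, hz⟩ := h (fun k => ε (k + 1))
  refine ⟨fun k => Nat.casesOn k ((if ε 0 then g 0 else 1) * ⁅b 0, z 0⁆) (fun j => z j), ?_⟩
  intro k
  cases k with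
  | zero => rfl
  | succ k => exact hz k

theorem TOW_pi {I : Type u} {G : I → Type u} [∀ i, Group (G i)] (g b : ℕ → ∀ i, G i)
    (h : ∀ i, Solv (fun k => g k i) (fun k => b k i)) : Solv g b := by
  intro ε
  choose z hz using fun i => h i ε
  refine ⟨fun k i => z i k, fun k => ?_⟩
  funext i
  have h1 := hz i k
  show z i k = ((if ε k then g k else 1) * ⁅b k, fun i => z i (k + 1)⁆) i
  rw [h1, Pi.mul_apply, commutatorElement_def, commutatorElement_def]
  cases hε : ε k
  · rfl
  · rfl

theorem TOW_seq {F : Type u} [Group F] (h : ∀ S : St F, ∃ S' : St F, Stp S S') (S₀ : St F) :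
    ∃ S : ℕ → St F, ∀ n, Stp (S n) (S (n + 1)) := by
  choose nx hnx using h
  exact ⟨fun n => Nat.rec S₀ (fun _ s => nx s) n, fun n => hnx _⟩

/-- The images in the earlier groups. -/
def TOW_up {K : ℕ → Type u} (φ : ∀ n, K (n + 1) → K n) (x : ∀ n, K n) : ℕ → ∀ n, K n
  | 0, n => x n
  | k + 1, n => φ n (TOW_up φ x k (n + 1))

theorem TOW : STA_stmt.{u} → FB_stmt.{u} → KEY_stmt.{u} → TOW_stmt.{u} := by
  intro hSTA hFB hKEY F _ _ _ S₀
  obtain ⟨S, hS⟩ := TOW_seq (hSTA F) S₀
  choose φ hf hN hT using hS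
  choose β a hG using fun n => hFB F (S n).f.range (S n).hf
  have hb0 : ∀ n, ∃ b : (S n).C (S n).d, (S n).f b = β n := fun n => (hG n).1
  have hg0 : ∀ n, ∃ g : (S n).C (S n).d, (S n).f g = a n := by
    intro n
    have h1 : ⁅(S n).f.range, (S n).f.range⁆ ≤ (S n).f.range := by
      refine Subgroup.commutator_le.2 fun x hx y hy => ?_
      rw [commutatorElement_def]
      exact mul_mem (mul_mem (mul_mem hx hy) (inv_mem hx)) (inv_mem hy)
    exact h1 (hG n).2.1
  choose b hb using hb0
  choose g hg using hg0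
  obtain ⟨ψ, hψ⟩ : ∃ ψ : ∀ n, (S (n + 1)).C (S (n + 1)).d → (S n).C (S n).d, ψ = fun n x => φ n x := ⟨_, rfl⟩
  have hup : ∀ (x : ∀ n, (S n).C (S n).d) (v : ℕ → F), (∀ n, (S n).f (x n) = v n) →
      ∀ k n, (S n).f (TOW_up (K := fun n => (S n).C (S n).d) ψ x k n) = v (n + k) := by
    intro x v hx k
    induction k with
    | zero => intro n; exact hx n
    | succ k ih =>
      intro n
      have h1 := ih (n + 1)
      rw [hf n] at h1
      have h2 : n + 1 + k = n + (k + 1) := by omega
      rw [h2] at h1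
      rw [← h1, hψ]
      rfl
  have claim : ∀ (o : Ordinal.{u}) (n : ℕ) (i : (S n).I), (S n).al i = o →
      Solv (fun k => (TOW_up (K := fun n => (S n).C (S n).d) ψ g k n : ∀ j, (S n).G j) i)
        (fun k => (TOW_up (K := fun n => (S n).C (S n).d) ψ b k n : ∀ j, (S n).G j) i) := by
    intro o
    induction o using WellFoundedLT.induction with
    | ind o ih =>
      intro n i hi
      apply TOW_shift
      have h1 := hT n i (fun k => TOW_up (K := fun n => (S n).C (S n).d) ψ g k (n + 1))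
        (fun k => TOW_up (K := fun n => (S n).C (S n).d) ψ b k (n + 1)) (fun i' hi' => by
          rw [hi] at hi'
          exact ih _ hi' (n + 1) i' rfl)
      rw [hψ] at h1 ⊢
      exact h1
  have hsolv := TOW_pi (fun k => (TOW_up (K := fun n => (S n).C (S n).d) ψ g k 0 : ∀ j, (S 0).G j))
    (fun k => (TOW_up (K := fun n => (S n).C (S n).d) ψ b k 0 : ∀ j, (S 0).G j)) (fun i => claim _ 0 i rfl)
  refine hKEY F (∀ i, (S 0).G i) (S 0).C (S 0).d (S 0).hC (S 0).f
    (fun k => TOW_up (K := fun n => (S n).C (S n).d) ψ g k 0)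
    (fun k => TOW_up (K := fun n => (S n).C (S n).d) ψ b k 0) (fun n => (S n).f.range) le_rfl ?_ ?_ hsolv
  · intro k
    constructor
    · rintro x ⟨y, rfl⟩
      rw [hf k]
      exact ⟨φ k y, rfl⟩
    · rintro x ⟨u, rfl⟩ y ⟨v, rfl⟩
      obtain ⟨w, hw⟩ := (hN k).conj_mem (φ k u) ⟨u, rfl⟩ v
      refine ⟨w, ?_⟩
      rw [hf k, MonoidHom.comp_apply, MonoidHom.comp_apply, hw, map_mul, map_mul, map_inv]
  · intro k
    have h1 := hup b β hb k 0
    have h2 := hup g a hg k 0
    rw [zero_add] at h1 h2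
    rw [h1, h2]
    exact hG k

end Pool.Agent.helper92.RC
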